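import Pool.Agent.Y713.NS.Lim

/-!
# A quasi-nilpotent operator with an infinite backward orbit on every infinite-dimensional Banach
space
-/

set_option autoImplicit false

open Filter Topology Set

namespace Pool.Agent.Y713.NS

variable {𝕜 : Type*} [RCLike 𝕜] {X : Type*} [NormedAddCommGroup X] [NormedSpace 𝕜 X]

theorem exists_next (hX : ¬ FiniteDimensional 𝕜 X) (s : Finset (X × (X →L[𝕜] 𝕜))) :
    ∃ (e : X) (f : X →L[𝕜] 𝕜), ‖e‖ = 1 ∧ f e = 1 ∧ ∀ x ∈ s, x.2 e = 0 ∧ f x.1 = 0 := by
  classical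
  set S : Submodule 𝕜 X := Submodule.span 𝕜 (s.image Prod.fst : Set X) with hS
  have hSfin : FiniteDimensional 𝕜 S := FiniteDimensional.span_finset 𝕜 _
  let L : X →ₗ[𝕜] (s → 𝕜) := LinearMap.pi fun x => (x.1.2 : X →ₗ[𝕜] 𝕜)
  have hnot : ¬ LinearMap.ker L ≤ S := by
    intro hle
    apply hX
    have h1 : FiniteDimensional 𝕜 (LinearMap.ker L) := Submodule.finiteDimensional_of_le hle
    have h2 : Module.Finite 𝕜 (X ⧸ LinearMap.ker L) :=
      Module.Finite.equiv (LinearMap.quotKerEquivRange L).symm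
    exact Module.Finite.of_submodule_quotient (LinearMap.ker L)
  obtain ⟨e, heL, heS⟩ := Set.not_subset.1 hnot
  obtain ⟨P, hP⟩ := Submodule.ClosedComplemented.of_finiteDimensional S
  have hne : e - (P e : X) ≠ 0 := by
    intro h
    apply heS
    rw [sub_eq_zero.1 h]
    exact (P e).2
  obtain ⟨g, hg⟩ := SeparatingDual.exists_eq_one (R := 𝕜) hne
  set f₀ : X →L[𝕜] 𝕜 := g.comp (ContinuousLinearMap.id 𝕜 X - S.subtypeL.comp P) with hf₀
  have hf₀e : f₀ e = 1 := by
    rw [hf₀]
    simpa using hg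
  have hf₀S : ∀ x ∈ S, f₀ x = 0 := by
    intro x hx
    rw [hf₀]
    have := hP ⟨x, hx⟩
    simp only [ContinuousLinearMap.comp_apply, sub_apply,
      ContinuousLinearMap.id_apply, Submodule.subtypeL_apply, this]
    simp
  have he0 : e ≠ 0 := by
    rintro rfl
    exact heS S.zero_mem
  have hn : (‖e‖ : 𝕜) ≠ 0 := by
    exact_mod_cast norm_ne_zero_iff.2 he0
  refine ⟨(‖e‖ : 𝕜)⁻¹ • e, (‖e‖ : 𝕜) • f₀, ?_, ?_, ?_⟩
  · rw [norm_smul, norm_inv, RCLike.norm_ofReal, abs_norm]
    exact inv_mul_cancel₀ (norm_ne_zero_iff.2 he0)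
  · rw [map_smul, smul_apply, hf₀e]
    simp [hn]
  · intro x hx
    constructor
    · have h1 : L e = 0 := heL
      have h2 := congrFun h1 ⟨x, hx⟩
      have h3 : x.2 e = 0 := h2
      rw [map_smul, h3, smul_zero]
    · rw [smul_apply, hf₀S, smul_zero]
      apply Submodule.subset_span
      rw [Finset.coe_image]
      exact ⟨x, hx, rfl⟩

/-- biorthogonal systems -/
theorem exists_biorthogonal (hX : ¬ FiniteDimensional 𝕜 X) :
    ∃ (e : ℕ → X) (f : ℕ → X →L[𝕜] 𝕜), (∀ n, ‖e n‖ = 1) ∧
      ∀ i j, f i (e j) = if i = j then 1 else 0 := by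
  obtain ⟨F, hF1, hF2⟩ := exists_seq_of_forall_finset_exists
    (fun x : X × (X →L[𝕜] 𝕜) => ‖x.1‖ = 1 ∧ x.2 x.1 = 1) (fun x y => x.2 y.1 = 0 ∧ y.2 x.1 = 0)
    (fun s _ => by
      obtain ⟨e, f, h1, h2, h3⟩ := exists_next hX s
      exact ⟨(e, f), ⟨h1, h2⟩, h3⟩)
  refine ⟨fun n => (F n).1, fun n => (F n).2, fun n => (hF1 n).1, fun i j => ?_⟩
  rcases lt_trichotomy i j with h | h | h
  · rw [if_neg h.ne]; exact (hF2 i j h).1
  · subst h; rw [if_pos rfl]; exact (hF1 i).2
  · rw [if_neg h.ne']; exact (hF2 j i h).2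

/-- on every infinite-dimensional Banach space there is a quasi-nilpotent operator with an infinite
backward orbit -/
theorem exists_quasi [CompleteSpace X] (hX : ¬ FiniteDimensional 𝕜 X) :
    ∃ V : X →L[𝕜] X, Quasi V ∧ ∃ x : Lim V, x ≠ 0 := by
  obtain ⟨e, f, he, hf⟩ := exists_biorthogonal hX
  have hF1 : ∀ n, 1 ≤ ‖f n‖ := by
    intro n
    have h1 := (f n).le_opNorm (e n)
    rw [hf, if_pos rfl, he, mul_one, norm_one] at h1
    exact h1
  set w : ℕ → ℝ := fun n => (1 / 2) ^ n / ((n + 1) * ‖f (n + 1)‖) with hw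
  have hw0 : ∀ n, 0 < w n := by
    intro n
    have := hF1 (n + 1)
    rw [hw]
    simp only
    positivity
  have hwF : ∀ n, w n * ‖f (n + 1)‖ = (1 / 2) ^ n / (n + 1) := by
    intro n
    have h1 : ‖f (n + 1)‖ ≠ 0 := by
      have := hF1 (n + 1)
      positivity
    rw [hw]
    simp only
    field_simp
  have hw1 : ∀ n, w n ≤ (1 / 2) ^ n / (n + 1) := by
    intro n
    rw [← hwF]
    exact le_mul_of_one_le_right (hw0 n).le (hF1 _)
  -- the coefficients
  set c : ℕ → ℕ → ℝ := fun k n => ∏ i ∈ Finset.range k, w (n + i) with hc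
  have hc0 : ∀ k n, 0 < c k n := fun k n => Finset.prod_pos fun i _ => hw0 _
  have hcs : ∀ k n, c (k + 1) n = c k n * w (n + k) := fun k n => Finset.prod_range_succ _ _
  have hcb : ∀ k n, c (k + 1) n ≤ (1 / 2) ^ n / (k + 1).factorial := by
    intro k
    induction k with
    | zero =>
      intro n
      rw [hcs]
      simp only [hc, Finset.range_zero, Finset.prod_empty, one_mul, add_zero]
      refine (hw1 n).trans ?_
      simp only [zero_add, Nat.factorial_one, Nat.cast_one, div_one]
      apply div_le_self (by positivity)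
      linarith [(Nat.cast_nonneg n : (0 : ℝ) ≤ n)]
    | succ k ih =>
      intro n
      rw [hcs]
      have h1 : w (n + (k + 1)) ≤ 1 / ((k : ℝ) + 1 + 1) := by
        refine (hw1 _).trans ?_
        apply div_le_div₀ zero_le_one (pow_le_one₀ (by norm_num) (by norm_num)) (by positivity)
        push_cast
        linarith [(Nat.cast_nonneg n : (0 : ℝ) ≤ n)]
      refine (mul_le_mul (ih n) h1 (hw0 _).le (by positivity)).trans (le_of_eq ?_)
      rw [Nat.factorial_succ (k + 1)]
      push_cast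
      field_simp
  set T : ℕ → ℕ → X →L[𝕜] X := fun k n => ((c k n : ℝ) : 𝕜) • (f (n + k)).smulRight (e n) with hT
  have hTb : ∀ k n, ‖T (k + 1) n‖ ≤ (1 / 2) ^ n / (k + 1).factorial := by
    intro k n
    rw [hT]
    simp only
    rw [norm_smul, ContinuousLinearMap.norm_smulRight_apply, he, mul_one, RCLike.norm_ofReal,
      abs_of_pos (hc0 _ _), hcs, mul_assoc, ← add_assoc n k 1, hwF]
    rcases Nat.eq_zero_or_pos k with rfl | hk
    · simp only [hc, Finset.range_zero, Finset.prod_empty, one_mul, add_zero, zero_add,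
        Nat.factorial_one, Nat.cast_one, div_one]
      apply div_le_self (by positivity)
      linarith [(Nat.cast_nonneg n : (0 : ℝ) ≤ n)]
    · obtain ⟨m, rfl⟩ : ∃ m, k = m + 1 := ⟨k - 1, by omega⟩
      have h1 : ((1 : ℝ) / 2) ^ (n + (m + 1)) / ((n + (m + 1) : ℕ) + 1) ≤ 1 / ((m : ℝ) + 1 + 1) := by
        apply div_le_div₀ zero_le_one (pow_le_one₀ (by norm_num) (by norm_num)) (by positivity)
        push_cast
        linarith [(Nat.cast_nonneg n : (0 : ℝ) ≤ n)]
      refine (mul_le_mul (hcb m n) h1 (by positivity) (by positivity)).trans (le_of_eq ?_)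
      rw [Nat.factorial_succ (m + 1)]
      push_cast
      field_simp
  have hgeom : ∀ k : ℕ, HasSum (fun n : ℕ => ((1 : ℝ) / 2) ^ n / (k + 1).factorial)
      (2 / (k + 1).factorial) := by
    intro k
    exact hasSum_geometric_two.div_const _
  have hsum : ∀ k, Summable (T (k + 1)) := fun k =>
    Summable.of_norm_bounded (hgeom k).summable (hTb k)
  set V : X →L[𝕜] X := ∑' n, T 1 n with hV
  have hVx : ∀ k x, HasSum (fun n => T (k + 1) n x) ((∑' n, T (k + 1) n) x) := by
    intro k x
    exact (hsum k).hasSum.mapL (ContinuousLinearMap.apply 𝕜 X x)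
  have hfe : ∀ m x (a : ℕ → 𝕜), HasSum (fun n => a n • e n) x → f m x = a m := by
    intro m x a ha
    have h1 := ha.mapL (f m)
    have h2 : (fun n => f m (a n • e n)) = fun n => if n = m then a m else 0 := by
      funext n
      rw [map_smul, hf]
      by_cases h : m = n
      · subst h; simp
      · rw [if_neg h, if_neg (Ne.symm h), smul_zero]
    rw [h2] at h1
    exact h1.unique (hasSum_ite_eq m (a m))
  have hfV : ∀ m x, f m (V x) = ((w m : ℝ) : 𝕜) * f (m + 1) x := by
    intro m x
    apply hfe m (V x) (fun n => ((w n : ℝ) : 𝕜) * f (n + 1) x)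
    have h1 := hVx 0 x
    have h2 : (fun n => T (0 + 1) n x) = fun n => (((w n : ℝ) : 𝕜) * f (n + 1) x) • e n := by
      funext n
      rw [hT]
      simp only [hc, zero_add, Finset.prod_range_one, add_zero, smul_apply,
        ContinuousLinearMap.smulRight_apply, smul_smul]
    rw [h2] at h1
    exact h1
  have hpow : ∀ k : ℕ, V ^ (k + 1) = ∑' n, T (k + 1) n := by
    intro k
    induction k with
    | zero => rw [zero_add, pow_one]
    | succ k ih =>
      rw [pow_succ, ih]
      ext x
      have h1 := hVx k (V x)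
      have h2 := hVx (k + 1) x
      have h3 : (fun n => T (k + 1) n (V x)) = fun n => T (k + 1 + 1) n x := by
        funext n
        rw [hT]
        simp only [smul_apply, ContinuousLinearMap.smulRight_apply, smul_smul]
        rw [hfV, hcs (k + 1) n, ← add_assoc n (k + 1) 1]
        push_cast
        ring_nf
      rw [h3] at h1
      exact h1.unique h2
  refine ⟨V, ?_, ?_⟩
  · intro r
    rw [← tendsto_add_atTop_iff_nat 1]
    have h1 : Tendsto (fun n : ℕ => 2 * (|r| ^ (n + 1) / (n + 1).factorial)) atTop (𝓝 0) := by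
      have := ((tendsto_add_atTop_iff_nat 1).2
        (FloorSemiring.tendsto_pow_div_factorial_atTop |r|)).const_mul 2
      rwa [mul_zero] at this
    apply squeeze_zero_norm _ h1
    intro n
    rw [norm_mul, norm_norm, Real.norm_eq_abs, abs_pow]
    have h2 : ‖V ^ (n + 1)‖ ≤ 2 / (n + 1).factorial := by
      rw [hpow]
      exact tsum_of_norm_bounded (hgeom n) (hTb n)
    refine (mul_le_mul_of_nonneg_right h2 (by positivity)).trans (le_of_eq ?_)
    ring
  · have hVe : ∀ n, V (e (n + 1)) = ((w n : ℝ) : 𝕜) • e n := by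
      intro n
      have h1 := hVx 0 (e (n + 1))
      have h2 : (fun m => T (0 + 1) m (e (n + 1))) = fun m =>
          if m = n then ((w n : ℝ) : 𝕜) • e n else 0 := by
        funext m
        rw [hT]
        simp only [hc, zero_add, Finset.prod_range_one, add_zero, smul_apply,
          ContinuousLinearMap.smulRight_apply, hf]
        by_cases h : m = n
        · subst h; simp
        · rw [if_neg (by omega), if_neg h, zero_smul, smul_zero]
      rw [h2] at h1
      exact h1.unique (hasSum_ite_eq n _)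
    refine ⟨⟨fun k => ((c k 0 : ℝ) : 𝕜)⁻¹ • e k, fun k => ?_⟩, ?_⟩
    · rw [map_smul, hVe, smul_smul, hcs, zero_add]
      congr 1
      have h1 : ((w k : ℝ) : 𝕜) ≠ 0 := by exact_mod_cast (hw0 k).ne'
      have h2 : ((c k 0 : ℝ) : 𝕜) ≠ 0 := by exact_mod_cast (hc0 k 0).ne'
      push_cast
      field_simp
    · intro h
      have h1 := congrFun (congrArg Subtype.val h) 0
      have h2 : ((c 0 0 : ℝ) : 𝕜)⁻¹ • e 0 = 0 := h1
      have h3 : c 0 0 = 1 := by simp [hc]
      rw [h3] at h2
      have h4 := congrArg norm h2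
      rw [norm_smul, he] at h4
      simp at h4

end Pool.Agent.Y713.NS
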