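import Mathlib

/-!
# The inverse limit of a quasi-nilpotent operator

`X` is a Banach space, `V` a bounded operator on it with `‖V ^ n‖ r ^ n → 0` for every `r`. The
space `E = {x : ℕ → X | x k = V (x (k + 1))}` is a closed subspace of the countable power of `X`
and `U x = (x (k + 1))` is a continuous linear operator on it.
-/

set_option autoImplicit false

open Filter Topology Set
open scoped Uniformity

namespace Pool.Agent.Y713.NS

variable {𝕜 : Type*} [RCLike 𝕜] {X : Type*} [NormedAddCommGroup X] [NormedSpace 𝕜 X]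

/-- `‖V ^ n‖` decays faster than every geometric sequence -/
def Quasi (V : X →L[𝕜] X) : Prop := ∀ r : ℝ, Tendsto (fun n : ℕ => ‖V ^ n‖ * r ^ n) atTop (𝓝 0)

/-- the inverse limit -/
def Lim (V : X →L[𝕜] X) : Submodule 𝕜 (ℕ → X) where
  carrier := {x | ∀ k, x k = V (x (k + 1))}
  zero_mem' := fun k => by simp
  add_mem' := fun {x y} hx hy k => by rw [Pi.add_apply, Pi.add_apply, map_add, ← hx k, ← hy k]
  smul_mem' := fun c x hx k => by rw [Pi.smul_apply, Pi.smul_apply, map_smul, ← hx k]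

theorem mem_Lim {V : X →L[𝕜] X} {x : ℕ → X} : x ∈ Lim V ↔ ∀ k, x k = V (x (k + 1)) := Iff.rfl

theorem isClosed_Lim (V : X →L[𝕜] X) : IsClosed (Lim V : Set (ℕ → X)) := by
  have : (Lim V : Set (ℕ → X)) = ⋂ k, {x | x k = V (x (k + 1))} := by
    ext x; simp [mem_Lim]
  rw [this]
  exact isClosed_iInter fun k => isClosed_eq (continuous_apply k) (V.continuous.comp
    (continuous_apply (k + 1)))

/-- the shift -/
noncomputable def shift (V : X →L[𝕜] X) : Lim V →L[𝕜] Lim V where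
  toFun x := ⟨fun k => (x : ℕ → X) (k + 1), fun k => x.2 (k + 1)⟩
  map_add' x y := rfl
  map_smul' c x := rfl
  cont := by
    apply Continuous.subtype_mk
    exact continuous_pi fun k => (continuous_apply (k + 1)).comp continuous_subtype_val

theorem shift_apply (V : X →L[𝕜] X) (x : Lim V) (k : ℕ) :
    ((shift V x : Lim V) : ℕ → X) k = (x : ℕ → X) (k + 1) := rfl

theorem iterate_apply (V : X →L[𝕜] X) (x : Lim V) (n k : ℕ) :
    (((shift V)^[n] x : Lim V) : ℕ → X) k = (x : ℕ → X) (k + n) := by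
  induction n generalizing k with
  | zero => rfl
  | succ n ih =>
    have e : k + 1 + n = k + (n + 1) := by omega
    rw [Function.iterate_succ_apply', shift_apply, ih, e]

theorem apply_eq_pow (V : X →L[𝕜] X) (x : Lim V) (n k : ℕ) :
    (x : ℕ → X) k = (V ^ n) ((x : ℕ → X) (k + n)) := by
  induction n with
  | zero => rfl
  | succ n ih =>
    rw [ih, x.2 (k + n), pow_succ]
    rfl

/-- `V - μ` is invertible -/
theorem isUnit_sub [CompleteSpace X] (V : X →L[𝕜] X) (hV : Quasi V) (μ : 𝕜) (hμ : μ ≠ 0) :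
    IsUnit (V - algebraMap 𝕜 (X →L[𝕜] X) μ) := by
  have h1 := hV ‖μ⁻¹‖
  obtain ⟨n, hn⟩ := ((tendsto_order.1 h1).2 1 one_pos).exists
  set T : X →L[𝕜] X := μ⁻¹ • V with hT
  have h2 : ‖T ^ n‖ < 1 := by
    rw [hT, smul_pow, norm_smul, norm_pow, mul_comm]
    exact hn
  have h3 : IsUnit (1 - T ^ n) := isUnit_one_sub_of_norm_lt_one h2
  have h4 : (1 - T) * ∑ i ∈ Finset.range n, T ^ i = 1 - T ^ n := mul_neg_geom_sum T n
  have h5 : Commute (1 - T) (∑ i ∈ Finset.range n, T ^ i) := by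
    apply Commute.sum_right
    intro i _
    exact ((Commute.one_left _).sub_left (Commute.refl T)).pow_right i
  have h6 : IsUnit (1 - T) := by
    rw [← h4] at h3
    exact (h5.isUnit_mul_iff.1 h3).1
  have h7 : V - algebraMap 𝕜 (X →L[𝕜] X) μ = (algebraMap 𝕜 (X →L[𝕜] X) (-μ)) * (1 - T) := by
    rw [hT, mul_sub, mul_one, Algebra.algebraMap_eq_smul_one, Algebra.algebraMap_eq_smul_one,
      smul_mul_smul_comm, one_mul, neg_mul, mul_inv_cancel₀ hμ]
    module
  rw [h7]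
  exact ((isUnit_iff_ne_zero.2 (neg_ne_zero.2 hμ)).map (algebraMap 𝕜 (X →L[𝕜] X))).mul h6

/-- all operators `I - μ U` are bijections -/
theorem bijective [CompleteSpace X] (V : X →L[𝕜] X) (hV : Quasi V) (μ : 𝕜) :
    Function.Bijective fun x : Lim V => x - μ • shift V x := by
  by_cases hμ : μ = 0
  · subst hμ
    have : (fun x : Lim V => x - (0 : 𝕜) • shift V x) = id := by
      funext x; simp
    rw [this]
    exact Function.bijective_id
  obtain ⟨R, hR⟩ := isUnit_sub V hV μ hμ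
  have hR1 : ∀ x : X, (↑R⁻¹ : X →L[𝕜] X) (V x - μ • x) = x := by
    intro x
    have h := congrArg (fun T : X →L[𝕜] X => T x) R.inv_mul
    rw [hR] at h
    simpa [Algebra.algebraMap_eq_smul_one] using h
  have hR2 : ∀ x : X, V ((↑R⁻¹ : X →L[𝕜] X) x) - μ • ((↑R⁻¹ : X →L[𝕜] X) x) = x := by
    intro x
    have h := congrArg (fun T : X →L[𝕜] X => T x) R.mul_inv
    rw [hR] at h
    simpa [Algebra.algebraMap_eq_smul_one] using h
  have hcomm : ∀ x : X, V ((↑R⁻¹ : X →L[𝕜] X) x) = (↑R⁻¹ : X →L[𝕜] X) (V x) := by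
    intro x
    have h1 := hR1 (V ((↑R⁻¹ : X →L[𝕜] X) x))
    have h2 := hR2 x
    have h3 : V (V ((↑R⁻¹ : X →L[𝕜] X) x)) - μ • V ((↑R⁻¹ : X →L[𝕜] X) x) = V x := by
      have := congrArg V h2
      rwa [map_sub, map_smul] at this
    rw [h3] at h1
    exact h1.symm
  have hcoord : ∀ (x : Lim V) (k : ℕ), ((x - μ • shift V x : Lim V) : ℕ → X) k
      = V ((x : ℕ → X) (k + 1)) - μ • (x : ℕ → X) (k + 1) := by
    intro x k
    have : ((x - μ • shift V x : Lim V) : ℕ → X) k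
      = (x : ℕ → X) k - μ • (x : ℕ → X) (k + 1) := rfl
    rw [this, ← x.2 k]
  constructor
  · intro x y hxy
    have h1 : ∀ k, (x : ℕ → X) (k + 1) = (y : ℕ → X) (k + 1) := by
      intro k
      have h := congrArg (fun z : Lim V => (z : ℕ → X) k) hxy
      simp only at h
      rw [hcoord, hcoord] at h
      rw [← hR1 ((x : ℕ → X) (k + 1)), h, hR1]
    apply Subtype.ext
    funext k
    rw [x.2 k, y.2 k, h1 k]
  · intro y
    let z : ℕ → X := fun k => V ((↑R⁻¹ : X →L[𝕜] X) ((y : ℕ → X) k))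
    have hz : ∀ k, z (k + 1) = (↑R⁻¹ : X →L[𝕜] X) ((y : ℕ → X) k) := by
      intro k
      change V ((↑R⁻¹ : X →L[𝕜] X) ((y : ℕ → X) (k + 1))) = _
      rw [hcomm, ← y.2 k]
    refine ⟨⟨z, fun k => by rw [hz]⟩, ?_⟩
    apply Subtype.ext
    funext k
    simp only
    rw [hcoord]
    simp only
    rw [hz, hR2]

/-- the orbits are unbounded after multiplication by any geometric sequence -/
theorem unbounded (V : X →L[𝕜] X) (hV : Quasi V) (μ : 𝕜) (hμ : μ ≠ 0) (x : Lim V) (hx : x ≠ 0) :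
    ¬ ∃ C : ℝ, ∀ k : ℕ, ‖((μ ^ k • (shift V)^[k] x : Lim V) : ℕ → X) 0‖ ≤ C := by
  rintro ⟨C, hC⟩
  apply hx
  apply Subtype.ext
  funext j
  have hC' : ∀ k, ‖(x : ℕ → X) k‖ ≤ C * ‖μ⁻¹‖ ^ k := by
    intro k
    have h1 := hC k
    have h2 : ((μ ^ k • (shift V)^[k] x : Lim V) : ℕ → X) 0 = μ ^ k • (x : ℕ → X) k := by
      change μ ^ k • ((((shift V)^[k] x : Lim V) : ℕ → X) 0) = _
      rw [iterate_apply, zero_add]
    rw [h2, norm_smul, norm_pow] at h1
    have h3 : 0 < ‖μ‖ ^ k := pow_pos (norm_pos_iff.2 hμ) k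
    rw [norm_inv, inv_pow, ← div_eq_mul_inv, le_div_iff₀ h3, mul_comm]
    exact h1
  have h1 : ∀ n : ℕ, ‖(x : ℕ → X) j‖ ≤ (C * ‖μ⁻¹‖ ^ j) * (‖V ^ n‖ * ‖μ⁻¹‖ ^ n) := by
    intro n
    rw [apply_eq_pow V x n j]
    refine ((V ^ n).le_opNorm _).trans ?_
    refine (mul_le_mul_of_nonneg_left (hC' (j + n)) (norm_nonneg _)).trans (le_of_eq ?_)
    rw [pow_add]; ring
  have h2 : Tendsto (fun n : ℕ => (C * ‖μ⁻¹‖ ^ j) * (‖V ^ n‖ * ‖μ⁻¹‖ ^ n)) atTop (𝓝 0) := by
    have := (hV ‖μ⁻¹‖).const_mul (C * ‖μ⁻¹‖ ^ j)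
    rwa [mul_zero] at this
  have h3 : ‖(x : ℕ → X) j‖ ≤ 0 := ge_of_tendsto' h2 h1
  exact norm_le_zero_iff.1 h3

end Pool.Agent.Y713.NS
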